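import Pool.Agent.N290.RM.Stm
import Pool.Agent.N861.RJ.C9

/-!
# Project RM (helper290), part KS (helper371): weights are small near the boundary if the tails of
their area integrals are small (the change of variables is from `N861/RJ/C9.lean`, helper861)
-/

set_option autoImplicit false

open Complex MeasureTheory Set Filter Topology
open scoped ENNReal

namespace Pool.Agent.N371.RM

open Pool.Agent.N290.RJ Pool.Agent.N290.RL Pool.Agent.N290.RM

variable {d : ℕ}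

/-- the kernel in the new coordinates -/
theorem kj (h6 : C6 d) {x : ℝ} (hx : 0 ≤ x) (hx1 : x < 1) {ξ : E d} (hξ : ξ ∈ B d)
    (hnp : 0 < nm ξ) :
    ((1 - x ^ 2) / ‖1 - (x : ℂ) * ξ.1‖ ^ 2) ^ (d + 2) * N290.RJ.ker ((x : ℂ), 0) (Ph x ξ) =
      1 / ‖1 - (x : ℂ) * ξ.1‖ ^ (d + 2) * (1 / nm ξ ^ (2 * d + 1)) := by
  obtain ⟨-, -, e1, -, e0, e2⟩ := h6 x hx hx1 ξ hξ
  unfold N290.RJ.ker
  rw [e0, e2, norm_div, RCLike.norm_conj]
  set u : ℝ := ‖1 - (x : ℂ) * ξ.1‖ with hu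
  have hux := N861.RJ.u_ge hx ξ
  rw [← hu] at hux
  have hf := N861.RJ.norm_fst_lt hξ
  have hf0 := norm_nonneg ξ.1
  have hn2 := nm_sq ξ
  have hx2 : 0 < 1 - x ^ 2 := by nlinarith
  have hu0 : 0 < u := by nlinarith
  have e7 : ‖(1 : ℂ) - (x : ℂ) ^ 2‖ = 1 - x ^ 2 := by
    have : (1 : ℂ) - (x : ℂ) ^ 2 = ((1 - x ^ 2 : ℝ) : ℂ) := by push_cast; rfl
    rw [this, Complex.norm_real, Real.norm_eq_abs, abs_of_pos hx2]
  rw [e7]
  have e3 : Real.sqrt ((1 - x ^ 2) ^ 2 * N ξ / u ^ 2) = (1 - x ^ 2) / u * nm ξ := by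
    have e4 : (1 - x ^ 2) ^ 2 * N ξ / u ^ 2 = ((1 - x ^ 2) / u * nm ξ) ^ 2 := by
      rw [mul_pow, div_pow, hn2]
      ring
    rw [e4, Real.sqrt_sq (by positivity)]
  rw [e3]
  have ha : (1 - x ^ 2) / u ^ 2 = (1 - x ^ 2) / u / u := by
    rw [div_div, ← sq]
  rw [ha]
  have ha0 : 0 < (1 - x ^ 2) / u := by positivity
  generalize (1 - x ^ 2) / u = a at *
  rw [div_pow, mul_pow]
  have e10 : a ^ d / (a * (a ^ (2 * d + 1) * nm ξ ^ (2 * d + 1))) =
      1 / (a ^ (d + 2) * nm ξ ^ (2 * d + 1)) := by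
    rw [div_eq_div_iff (by positivity) (by positivity)]
    have : a ^ d * (a ^ (d + 2) * nm ξ ^ (2 * d + 1)) =
      1 * (a * (a ^ (2 * d + 1) * nm ξ ^ (2 * d + 1))) := by ring
    exact this
  rw [e10]
  field_simp

/-- the length of `ξ` at `t ξ` -/
theorem len_le {ξ : E d} (hξ : nm ξ < 1 / 2) {t : ℝ} (h0 : 0 ≤ t) (h1 : t ≤ 1) :
    len (t • ξ) ξ ≤ 1 := by
  have hn0 := nm_nonneg ξ
  have hn2 := nm_sq ξ
  have hN : N ξ ≤ 1 / 4 := by nlinarith
  have hN0 := N_nonneg ξ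
  have hip : ip ξ (t • ξ) = ((t * N ξ : ℝ) : ℂ) := by
    have e : (t • ξ : E d) = (t : ℂ) • ξ := by
      ext <;> simp
    rw [← ip_conj, e, ip_smul_left, ip_self, map_mul, Complex.conj_ofReal, Complex.conj_ofReal]
    push_cast
    rfl
  unfold len
  refine Real.sqrt_le_iff.2 ⟨zero_le_one, ?_⟩
  rw [one_pow]
  unfold len2
  rw [N_smul, hip, Complex.norm_real, Real.norm_eq_abs, sq_abs]
  have ht : t ^ 2 ≤ 1 := pow_le_one₀ h0 h1
  have h2 : 3 / 4 ≤ 1 - t ^ 2 * N ξ := by nlinarith [sq_nonneg t]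
  have h3 : N ξ / (1 - t ^ 2 * N ξ) ≤ 1 / 3 := by
    rw [div_le_iff₀ (by linarith)]
    linarith
  have h4 : (t * N ξ) ^ 2 / (1 - t ^ 2 * N ξ) ^ 2 ≤ 1 / 9 := by
    rw [div_le_iff₀ (by positivity)]
    have h5 : (t * N ξ) ^ 2 ≤ 1 / 16 := by
      have : 0 ≤ t * N ξ := mul_nonneg h0 hN0
      have : t * N ξ ≤ 1 / 4 := by nlinarith
      nlinarith
    nlinarith
  linarith

/-- a slowly varying weight on an invariant ball -/
theorem near (h6 : C6 d) {a : E d → ℝ} (ha : AW a) {U : E d →L[ℂ] E d} (hU : IsU U) {x : ℝ}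
    (hx : 0 ≤ x) (hx1 : x < 1) {ξ : E d} (hξ : nm ξ < 1 / 2) :
    a (U (Ph x 0)) / 2 ≤ a (U (Ph x ξ)) := by
  have hmem : ∀ t : ℝ, 0 ≤ t → t ≤ 1 → t • ξ ∈ B d := fun t h0 h1 =>
    smul_mem_B (mem_B_nm.2 (by linarith)) h0 h1
  have hin : ∀ t : ℝ, 0 ≤ t → t ≤ 1 → Ph x (t • ξ) ∈ B d := by
    intro t h0 h1
    obtain ⟨-, -, e1, -⟩ := h6 x hx hx1 (t • ξ) (hmem t h0 h1)
    have hB := hmem t h0 h1
    have h2 : 0 < 1 - N (Ph x (t • ξ)) := by
      rw [e1]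
      have hux := N861.RJ.u_ge hx (t • ξ)
      have hf := N861.RJ.norm_fst_lt hB
      have hf0 := norm_nonneg (t • ξ).1
      have hu0 : 0 < ‖1 - (x : ℂ) * (t • ξ).1‖ := by nlinarith
      have hx2 : 0 < 1 - x ^ 2 := by nlinarith
      have h3 : 0 < 1 - N (t • ξ) := sub_pos.2 hB
      positivity
    rw [mem_B]
    linarith
  let g : ℝ → ℝ := fun t => a (U (Ph x (t • ξ)))
  have hder : ∀ t : ℝ, 0 ≤ t → t ≤ 1 → ∃ g' : ℝ, HasDerivAt g g' t ∧ |g'| ≤ 1 / 2 * g t := by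
    intro t h0 h1
    obtain ⟨hd, hdd, -, hlen, -⟩ := h6 x hx hx1 (t • ξ) (hmem t h0 h1)
    have hUB : U (Ph x (t • ξ)) ∈ B d := (hU.mem _).2 (hin t h0 h1)
    have c1 : HasDerivAt (fun s : ℝ => s • ξ) ξ t := by
      simpa using (hasDerivAt_id t).smul_const ξ
    have c2 : HasFDerivAt (Ph x) ((fderiv ℂ (Ph x) (t • ξ)).restrictScalars ℝ) (t • ξ) :=
      hd.hasFDerivAt.restrictScalars ℝ
    have c3 : HasFDerivAt (fun w : E d => U w) (U.restrictScalars ℝ) (Ph x (t • ξ)) :=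
      U.hasFDerivAt.restrictScalars ℝ
    have c4 : HasFDerivAt a (fderiv ℝ a (U (Ph x (t • ξ)))) (U (Ph x (t • ξ))) :=
      ((ha.a1.differentiableOn (by norm_num)).differentiableAt
        (B_open.mem_nhds hUB)).hasFDerivAt
    have c32 : HasFDerivAt (fun w : E d => U (Ph x w)) ((U.restrictScalars ℝ).comp
        ((fderiv ℂ (Ph x) (t • ξ)).restrictScalars ℝ)) (t • ξ) :=
      HasFDerivAt.comp (t • ξ) c3 c2
    have c43 : HasFDerivAt (fun w : E d => a (U (Ph x w))) ((fderiv ℝ a (U (Ph x (t • ξ)))).comp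
        ((U.restrictScalars ℝ).comp ((fderiv ℂ (Ph x) (t • ξ)).restrictScalars ℝ))) (t • ξ) :=
      HasFDerivAt.comp (t • ξ) c4 c32
    have c5 : HasDerivAt g (((fderiv ℝ a (U (Ph x (t • ξ)))).comp ((U.restrictScalars ℝ).comp
        ((fderiv ℂ (Ph x) (t • ξ)).restrictScalars ℝ))) ξ) t :=
      HasFDerivAt.comp_hasDerivAt (l := fun w : E d => a (U (Ph x w))) t c43 c1
    refine ⟨_, c5, ?_⟩
    have e1 : ((fderiv ℝ a (U (Ph x (t • ξ)))).comp ((U.restrictScalars ℝ).comp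
        ((fderiv ℂ (Ph x) (t • ξ)).restrictScalars ℝ))) ξ =
        fderiv ℝ a (U (Ph x (t • ξ))) (U (dPh x (t • ξ) ξ)) := by
      rw [← hdd]
      rfl
    rw [e1]
    have h2 := ha.a3 _ hUB (U (dPh x (t • ξ) ξ))
    rw [hU.len, hlen] at h2
    have h3 := len_le hξ h0 h1
    have h4 := (ha.a2 _ hUB).1
    have h5 : a (U (Ph x (t • ξ))) * len (t • ξ) ξ ≤ a (U (Ph x (t • ξ))) * 1 := by gcongr
    show _ ≤ 1 / 2 * a (U (Ph x (t • ξ)))
    linarith
  have hpos : ∀ t : ℝ, 0 ≤ t → t ≤ 1 → 0 < g t := fun t h0 h1 =>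
    (ha.a2 _ ((hU.mem _).2 (hin t h0 h1))).1
  have hmono : MonotoneOn (fun t => g t * Real.exp (t / 2)) (Icc 0 1) := by
    have hD : ∀ t ∈ Icc (0 : ℝ) 1, ∃ G' : ℝ,
        HasDerivAt (fun t => g t * Real.exp (t / 2)) G' t ∧ 0 ≤ G' := by
      intro t ht
      obtain ⟨g', hg', hb⟩ := hder t ht.1 ht.2
      have h2 : HasDerivAt (fun t : ℝ => Real.exp (t / 2)) (Real.exp (t / 2) * (1 / 2)) t :=
        ((hasDerivAt_id t).div_const 2).exp
      refine ⟨_, hg'.mul h2, ?_⟩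
      have h3 := Real.exp_pos (t / 2)
      have h4 := (abs_le.1 hb).1
      have h5 : g' * Real.exp (t / 2) + g t * (Real.exp (t / 2) * (1 / 2)) =
          (g' + 1 / 2 * g t) * Real.exp (t / 2) := by ring
      rw [h5]
      exact mul_nonneg (by linarith) h3.le
    refine monotoneOn_of_deriv_nonneg (convex_Icc 0 1) ?_ ?_ ?_
    · intro t ht
      obtain ⟨_, h2, -⟩ := hD t ht
      exact h2.continuousAt.continuousWithinAt
    · intro t ht
      obtain ⟨_, h2, -⟩ := hD t (interior_subset ht)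
      exact h2.differentiableAt.differentiableWithinAt
    · intro t ht
      obtain ⟨_, h2, h3⟩ := hD t (interior_subset ht)
      rw [h2.deriv]
      exact h3
  have h2 := hmono (left_mem_Icc.2 zero_le_one) (right_mem_Icc.2 zero_le_one) zero_le_one
  have h3 : g 0 * Real.exp (0 / 2) ≤ g 1 * Real.exp (1 / 2) := h2
  have h4 : Real.exp (1 / 2) ≤ 2 := by
    have h5 : Real.exp (1 / 2) ^ 2 = Real.exp 1 := by
      rw [← Real.exp_nat_mul]
      norm_num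
    have h6 := Real.exp_one_lt_d9
    have h7 := Real.exp_pos (1 / 2 : ℝ)
    nlinarith
  have h5 : g 0 = a (U (Ph x 0)) := by
    show a (U (Ph x ((0 : ℝ) • ξ))) = _
    rw [zero_smul]
  have h7 : g 1 = a (U (Ph x ξ)) := by
    show a (U (Ph x ((1 : ℝ) • ξ))) = _
    rw [one_smul]
  have h8 := hpos 1 zero_le_one le_rfl
  rw [zero_div, Real.exp_zero, mul_one, h5] at h3
  rw [← h7]
  nlinarith

theorem KS_of (d : ℕ) (h3 : C3 d) (h4 : C4 d) (h4b : C4b d) (h6 : C6 d) : KS d := by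
  set S : Set (E d) := {ξ | 0 < nm ξ ∧ nm ξ < 1 / 2} with hS
  have hcn : Continuous (nm : E d → ℝ) := N_continuous.sqrt
  have hSo : IsOpen S := (isOpen_lt continuous_const hcn).inter (isOpen_lt hcn continuous_const)
  have hSm : MeasurableSet S := hSo.measurableSet
  have hSB : S ⊆ B d := fun ξ hξ => mem_B_nm.2 (by have := hξ.2; linarith)
  have hSn : S.Nonempty := by
    refine ⟨((((1 / 4 : ℝ) : ℂ), 0) : E d), ?_⟩
    have h1 : N ((((1 / 4 : ℝ) : ℂ), 0) : E d) = (1 / 4) ^ 2 := by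
      unfold N
      simp only [Complex.norm_real, Real.norm_eq_abs, sq_abs, Pi.zero_apply, norm_zero]
      simp
    have h2 : nm ((((1 / 4 : ℝ) : ℂ), 0) : E d) = 1 / 4 := by
      rw [nm, h1, Real.sqrt_sq (by norm_num)]
    constructor
    · rw [h2]; norm_num
    · rw [h2]; norm_num
  have hS0 : 0 < volume S := hSo.measure_pos _ hSn
  have hSt : volume S < ⊤ := by
    refine lt_of_le_of_lt (measure_mono ?_) (lt_of_le_of_lt
      (N861.RJ.vol_nm (d := d) (1 / 2) (by norm_num)) ENNReal.ofReal_lt_top)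
    intro ξ hξ
    exact hξ.2.le
  set V : ℝ := (volume S).toReal with hV
  have hV0 : 0 < V := ENNReal.toReal_pos hS0.ne' hSt.ne
  refine ⟨2 ^ (d + 4) / V, by positivity, ?_⟩
  intro τ a ha hT z hz
  -- reduction to a point `(x, 0)`
  obtain ⟨U, hU, -, hUz⟩ := h4b z
  obtain ⟨-, -, h4c⟩ := h4 U hU
  set x : ℝ := nm z with hxdef
  have hx : 0 ≤ x := nm_nonneg z
  have hx1 : x < 1 := mem_B_nm.1 hz
  have hNz : N z = x ^ 2 := (nm_sq z).symm
  have hx2 : 0 < 1 - x ^ 2 := by nlinarith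
  set κ : ℝ := 4 * (1 - N z) with hκ
  have hκ0 : 0 < κ := by rw [hκ, hNz]; linarith
  have hT' := hT κ hκ0 z hz
  have hP0 : Ph x (0 : E d) = ((x : ℂ), 0) := by
    unfold Ph
    simp
  have haz : a (U (Ph x 0)) = a z := by rw [hP0, hUz]
  have hazp := (ha.a2 z hz).1
  -- the measurable version of `a ∘ U`
  let b : E d → ℝ := (B d).indicator (fun w => a (U w))
  have hbm : Measurable b := by
    have hc : ContinuousOn (fun w => a (U w)) (B d) :=
      ha.a1.continuousOn.comp U.continuous.continuousOn (fun w hw => (hU.mem w).2 hw)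
    classical
    have h1 : b = (B d).piecewise (fun w => a (U w)) 0 :=
      (Set.piecewise_eq_indicator).symm
    rw [h1]
    exact hc.measurable_piecewise continuousOn_const B_meas
  have hb : ∀ w ∈ B d, b w = a (U w) := fun w hw => indicator_of_mem hw _
  let G : E d → ℝ≥0∞ := fun w =>
    ENNReal.ofReal ((if 1 - N w ≤ κ then b w ^ 2 else 0) * N290.RJ.ker ((x : ℂ), 0) w)
  have hGm : Measurable G := by
    have m1 : Measurable (fun w : E d => if 1 - N w ≤ κ then b w ^ 2 else 0) := by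
      refine Measurable.ite ?_ (hbm.pow_const 2) measurable_const
      exact measurableSet_le (N_continuous.measurable.const_sub 1) measurable_const
    exact (m1.mul (N861.RJ.ker_meas _)).ennreal_ofReal
  have e1 : ∫⁻ w in B d, ENNReal.ofReal ((if 1 - N w ≤ κ then a w ^ 2 else 0) *
      N290.RJ.ker z w) = ∫⁻ w in B d, G w := by
    rw [h4c (fun w => ENNReal.ofReal ((if 1 - N w ≤ κ then a w ^ 2 else 0) *
      N290.RJ.ker z w))]
    refine setLIntegral_congr_fun B_meas fun w hw => ?_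
    show ENNReal.ofReal ((if 1 - N (U w) ≤ κ then a (U w) ^ 2 else 0) *
      N290.RJ.ker z (U w)) = ENNReal.ofReal ((if 1 - N w ≤ κ then b w ^ 2 else 0) *
      N290.RJ.ker ((x : ℂ), 0) w)
    rw [hU w, hb w hw]
    have e2 : N290.RJ.ker z (U w) = N290.RJ.ker ((x : ℂ), 0) w := by
      conv_lhs => rw [← hUz]
      rw [hU.ker]
    rw [e2]
  obtain ⟨h3in, h3x, -⟩ := h3 x hx hx1
  rw [e1, h3x _ hGm] at hT'
  -- the lower bound
  have hlow : ENNReal.ofReal ((a z / 2) ^ 2 * (1 / 2 ^ (d + 2))) * volume S ≤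
      ∫⁻ ξ in B d, ENNReal.ofReal (((1 - x ^ 2) / ‖1 - x * ξ.1‖ ^ 2) ^ (d + 2)) * G (Ph x ξ) := by
    rw [← setLIntegral_const]
    refine (setLIntegral_mono' hSm (fun ξ hξ => ?_)).trans (lintegral_mono_set hSB)
    have hξB : ξ ∈ B d := hSB hξ
    have hPB : Ph x ξ ∈ B d := h3in ξ hξB
    obtain ⟨-, -, e3, -⟩ := h6 x hx hx1 ξ hξB
    have hux := N861.RJ.u_ge hx ξ
    have hn2 := nm_sq ξ
    have hN0 := N_nonneg ξ
    have hf2 : ‖ξ.1‖ ^ 2 ≤ N ξ := by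
      unfold N
      have : 0 ≤ ∑ i, ‖ξ.2 i‖ ^ 2 := by positivity
      linarith
    have hf : ‖ξ.1‖ ≤ 1 / 2 := by
      have h7 : ‖ξ.1‖ ≤ nm ξ := by
        rw [← hn2] at hf2
        exact abs_le_of_sq_le_sq' hf2 (nm_nonneg ξ) |>.2
      exact h7.trans hξ.2.le
    have hf0 := norm_nonneg ξ.1
    have hul : 1 / 2 ≤ ‖1 - (x : ℂ) * ξ.1‖ := by nlinarith
    have huu : ‖1 - (x : ℂ) * ξ.1‖ ≤ 2 := by
      refine (norm_sub_le _ _).trans ?_
      rw [norm_one, norm_mul, Complex.norm_real, Real.norm_eq_abs, abs_of_nonneg hx]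
      nlinarith
    have hif : 1 - N (Ph x ξ) ≤ κ := by
      rw [e3, hκ, hNz, div_le_iff₀ (by positivity)]
      have h8 : 1 / 4 ≤ ‖1 - (x : ℂ) * ξ.1‖ ^ 2 := by nlinarith
      have h9 : (1 - x ^ 2) * (1 - N ξ) ≤ (1 - x ^ 2) * 1 := by
        refine mul_le_mul_of_nonneg_left ?_ hx2.le
        linarith
      nlinarith
    have hk := kj h6 hx hx1 hξB hξ.1
    show _ ≤ ENNReal.ofReal (((1 - x ^ 2) / ‖1 - (x : ℂ) * ξ.1‖ ^ 2) ^ (d + 2)) *
      ENNReal.ofReal ((if 1 - N (Ph x ξ) ≤ κ then b (Ph x ξ) ^ 2 else 0) *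
        N290.RJ.ker ((x : ℂ), 0) (Ph x ξ))
    rw [if_pos hif, hb _ hPB, ← ENNReal.ofReal_mul (by positivity)]
    apply ENNReal.ofReal_le_ofReal
    have h10 := near h6 ha hU hx hx1 hξ.2
    rw [haz] at h10
    have h11 : ((1 - x ^ 2) / ‖1 - (x : ℂ) * ξ.1‖ ^ 2) ^ (d + 2) *
        (a (U (Ph x ξ)) ^ 2 * N290.RJ.ker ((x : ℂ), 0) (Ph x ξ)) =
        a (U (Ph x ξ)) ^ 2 * (1 / ‖1 - (x : ℂ) * ξ.1‖ ^ (d + 2) * (1 / nm ξ ^ (2 * d + 1))) := by
      rw [← hk]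
      ring
    rw [h11]
    have hu0 : 0 < ‖1 - (x : ℂ) * ξ.1‖ := by linarith
    have h12 : 1 / 2 ^ (d + 2) ≤ 1 / ‖1 - (x : ℂ) * ξ.1‖ ^ (d + 2) := by
      apply one_div_le_one_div_of_le (by positivity)
      gcongr
    have h13 : 1 ≤ 1 / nm ξ ^ (2 * d + 1) := by
      rw [le_div_iff₀ (by have := hξ.1; positivity), one_mul]
      exact pow_le_one₀ (nm_nonneg ξ) (by have := hξ.2; linarith)
    have h14 : 1 / 2 ^ (d + 2) ≤ 1 / ‖1 - (x : ℂ) * ξ.1‖ ^ (d + 2) * (1 / nm ξ ^ (2 * d + 1)) := by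
      calc 1 / 2 ^ (d + 2) ≤ 1 / ‖1 - (x : ℂ) * ξ.1‖ ^ (d + 2) := h12
        _ = 1 / ‖1 - (x : ℂ) * ξ.1‖ ^ (d + 2) * 1 := (mul_one _).symm
        _ ≤ _ := by gcongr
    have h15 : (a z / 2) ^ 2 ≤ a (U (Ph x ξ)) ^ 2 := by gcongr
    exact mul_le_mul h15 h14 (by positivity) (by positivity)
  have h20 := hlow.trans hT'
  have h21 : ENNReal.ofReal ((a z / 2) ^ 2 * (1 / 2 ^ (d + 2)) * V) ≤ ENNReal.ofReal (τ κ) := by
    rw [ENNReal.ofReal_mul (by positivity), hV, ENNReal.ofReal_toReal hSt.ne]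
    exact h20
  have h22 : (a z / 2) ^ 2 * (1 / 2 ^ (d + 2)) * V ≤ |τ κ| := by
    by_contra hcon
    push Not at hcon
    have h23 : τ κ < (a z / 2) ^ 2 * (1 / 2 ^ (d + 2)) * V := lt_of_le_of_lt (le_abs_self _) hcon
    have h24 : 0 < (a z / 2) ^ 2 * (1 / 2 ^ (d + 2)) * V := by positivity
    exact absurd h21 (not_le.2 ((ENNReal.ofReal_lt_ofReal_iff h24).2 h23))
  have h25 : a z ^ 2 = 2 ^ (d + 4) / V * ((a z / 2) ^ 2 * (1 / 2 ^ (d + 2)) * V) := by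
    rw [pow_add 2 d 4, pow_add 2 d 2]
    field_simp
  rw [h25]
  gcongr

end Pool.Agent.N371.RM
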